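import Mathlib

/-!
# A Banach space with a Markushevich basis and without equivalent LUR norm
-/

set_option autoImplicit false

open Set Filter Topology
open scoped ENNReal

namespace Pool.Agent.Results.MP_ea77cd_an.MBasisNoLUR

/-- The family `(x i, f i)` is an (extended) Markushevich basis of the Banach space `E`. -/
structure IsMBasis (𝕜 : Type) [RCLike 𝕜] {E I : Type} [NormedAddCommGroup E] [NormedSpace 𝕜 E]
    (x : I → E) (f : I → E →L[𝕜] 𝕜) : Prop where
  one : ∀ i, f i (x i) = 1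
  zero : ∀ i j, i ≠ j → f i (x j) = 0
  fundamental : closure (Submodule.span 𝕜 (range x) : Set E) = univ
  total : ∀ v : E, (∀ i, f i v = 0) → v = 0

/-- `N` is a norm on `E` equivalent to the given one. -/
structure IsEquivNorm (𝕜 : Type) [RCLike 𝕜] {E : Type} [NormedAddCommGroup E] [NormedSpace 𝕜 E]
    (N : E → ℝ) : Prop where
  add_le : ∀ u v, N (u + v) ≤ N u + N v
  smul : ∀ (c : 𝕜) (u : E), N (c • u) = ‖c‖ * N u
  equiv : ∃ a b : ℝ, 0 < a ∧ 0 < b ∧ ∀ u, a * ‖u‖ ≤ N u ∧ N u ≤ b * ‖u‖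

/-- The norm `N` is locally uniformly convex (LUR). -/
def IsLUR {E : Type} [NormedAddCommGroup E] (N : E → ℝ) : Prop :=
  ∀ (u : E) (v : ℕ → E), N u = 1 → (∀ n, N (v n) = 1) →
    Tendsto (fun n => N (v n + u)) atTop (𝓝 2) → Tendsto (fun n => N (v n - u)) atTop (𝓝 0)

section noLUR

variable {𝕜 : Type} [RCLike 𝕜]

/-- the space `ℓ_∞` -/
abbrev Y (𝕜 : Type) [RCLike 𝕜] : Type := lp (fun _ : ℕ => 𝕜) ∞

/-- restriction of an element of `ℓ_∞` to a set of indices -/
noncomputable def res (A : Set ℕ) (w : Y 𝕜) : Y 𝕜 :=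
  ⟨fun n => open Classical in if n ∈ A then w n else 0, by
    refine memℓp_infty ⟨‖w‖, ?_⟩
    rintro _ ⟨n, rfl⟩
    dsimp only
    split_ifs
    · exact lp.norm_apply_le_norm ENNReal.top_ne_zero w n
    · simp⟩

lemma res_mem {A : Set ℕ} {n : ℕ} (h : n ∈ A) (w : Y 𝕜) : res A w n = w n := by
  classical
  change (if n ∈ A then w n else 0) = w n
  rw [if_pos h]

lemma res_not_mem {A : Set ℕ} {n : ℕ} (h : n ∉ A) (w : Y 𝕜) : res A w n = 0 := by
  classical
  change (if n ∈ A then w n else 0) = 0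
  rw [if_neg h]

lemma split_infinite {A : Set ℕ} (hA : A.Infinite) :
    ∃ B C : Set ℕ, B ∪ C = A ∧ Disjoint B C ∧ B.Infinite ∧ C.Infinite := by
  obtain ⟨B, C, h1, h2, h3⟩ := hA.exists_union_disjoint_cardinal_eq_of_infinite
  have hBC : B.Infinite ↔ C.Infinite := by
    rw [← Set.infinite_coe_iff, ← Set.infinite_coe_iff, Cardinal.infinite_iff,
      Cardinal.infinite_iff, h3]
  refine ⟨B, C, h1, h2, ?_⟩
  by_cases hB : B.Infinite
  · exact ⟨hB, hBC.1 hB⟩
  · have hC : ¬ C.Infinite := fun h => hB (hBC.2 h)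
    exact absurd (h1 ▸ (Set.not_infinite.1 hB).union (Set.not_infinite.1 hC)) hA

/-- a norm on `ℓ_∞`, bounded by a multiple of the usual one -/
structure IsN (p : Y 𝕜 → ℝ) (a b : ℝ) : Prop where
  add_le : ∀ u v, p (u + v) ≤ p u + p v
  smul : ∀ (c : 𝕜) u, p (c • u) = ‖c‖ * p u
  pos : 0 < a
  lower : ∀ u, a * ‖u‖ ≤ p u
  upper : ∀ u, p u ≤ b * ‖u‖

variable {p : Y 𝕜 → ℝ} {a b : ℝ}

lemma IsN.sub_le (hp : IsN p a b) (u v : Y 𝕜) : p u - p v ≤ p (u - v) := by
  have := hp.add_le (u - v) v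
  rw [sub_add_cancel] at this
  linarith

lemma IsN.nonneg (hp : IsN p a b) (u : Y 𝕜) : 0 ≤ p u :=
  (mul_nonneg hp.pos.le (norm_nonneg u)).trans (hp.lower u)

lemma exists_small (hp : IsN p a b) {A : Set ℕ} (hA : A.Infinite) (w : Y 𝕜) {ε : ℝ} (hε : 0 < ε) :
    ∃ B ⊆ A, B.Infinite ∧ p w - ε ≤ p (w - res B w) := by
  by_contra hcon
  push Not at hcon
  have key : ∀ k : ℕ, ∀ B ⊆ A, B.Infinite →
      p (((k : 𝕜) + 1) • w - res B w) ≤ (k + 1) * (p w - ε) := by
    intro k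
    induction k with
    | zero =>
      intro B hB hBi
      simp only [Nat.cast_zero, zero_add, one_smul, one_mul]
      exact (hcon B hB hBi).le
    | succ k ih =>
      intro B hB hBi
      obtain ⟨C, D, h1, h2, hC, hD⟩ := split_infinite hBi
      have e : (((k + 1 : ℕ) : 𝕜) + 1) • w - res B w =
          (((k : 𝕜) + 1) • w - res C w) + (w - res D w) := by
        have e1 : res B w = res C w + res D w := by
          apply lp.ext
          funext n
          rw [lp.coeFn_add, Pi.add_apply]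
          by_cases hnC : n ∈ C
          · have hnD : n ∉ D := fun h => Set.disjoint_left.1 h2 hnC h
            rw [res_mem (h1 ▸ Or.inl hnC), res_mem hnC, res_not_mem hnD, add_zero]
          · by_cases hnD : n ∈ D
            · rw [res_mem (h1 ▸ Or.inr hnD), res_mem hnD, res_not_mem hnC, zero_add]
            · have : n ∉ B := by
                rw [← h1]
                rintro (h | h)
                · exact hnC h
                · exact hnD h
              rw [res_not_mem this, res_not_mem hnC, res_not_mem hnD, add_zero]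
        rw [e1]
        push_cast
        module
      rw [e]
      refine (hp.add_le _ _).trans ?_
      have h3 := ih C ((h1 ▸ Set.subset_union_left : C ⊆ B).trans hB) hC
      have h4 := hcon D ((h1 ▸ Set.subset_union_right : D ⊆ B).trans hB) hD
      push_cast
      linarith
  obtain ⟨k, hk⟩ := exists_nat_gt (b * ‖res A w‖ / ε)
  rw [div_lt_iff₀ hε] at hk
  have h1 := key k A subset_rfl hA
  have h2 := hp.sub_le (((k : 𝕜) + 1) • w) (res A w)
  have h3 := hp.upper (res A w)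
  rw [hp.smul] at h2
  have h4 : ‖(k : 𝕜) + 1‖ = k + 1 := by
    have : ((k : 𝕜) + 1) = ((k + 1 : ℕ) : 𝕜) := by push_cast; rfl
    rw [this, RCLike.norm_natCast]
    push_cast
    rfl
  rw [h4] at h2
  nlinarith

/-- The set of elements of the unit ball that agree with `z` off `A`. -/
def S (A : Set ℕ) (z : Y 𝕜) : Set (Y 𝕜) := {w | (∀ n, ‖w n‖ ≤ 1) ∧ ∀ n, n ∉ A → w n = z n}

lemma norm_le_one_of_mem_S {A : Set ℕ} {z w : Y 𝕜} (h : w ∈ S A z) : ‖w‖ ≤ 1 :=
  lp.norm_le_of_forall_le zero_le_one h.1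

/-- The basic step. -/
lemma step (hp : IsN p a b) {A : Set ℕ} (hA : A.Infinite) {z : Y 𝕜} (hz : z ∈ S A z)
    {ε : ℝ} (hε : 0 < ε) :
    ∃ B ⊆ A, B.Infinite ∧ ∃ w ∈ S A z, w ∈ S B w ∧ ∃ M : ℝ,
      (∀ u ∈ S A z, p u ≤ M) ∧ (∃ u ∈ S A z, M - ε ≤ p u) ∧ ∀ u ∈ S B w, M - ε ≤ p u := by
  have hb : ∀ u ∈ S A z, p u ≤ |b| := by
    intro u hu
    have h1 := norm_le_one_of_mem_S hu
    calc p u ≤ b * ‖u‖ := hp.upper u
      _ ≤ |b| * ‖u‖ := mul_le_mul_of_nonneg_right (le_abs_self b) (norm_nonneg u)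
      _ ≤ |b| * 1 := mul_le_mul_of_nonneg_left h1 (abs_nonneg b)
      _ = |b| := mul_one _
  set T : Set ℝ := p '' S A z with hT
  have hTb : BddAbove T := ⟨|b|, by rintro _ ⟨u, hu, rfl⟩; exact hb u hu⟩
  have hTn : T.Nonempty := ⟨p z, z, hz, rfl⟩
  set M := sSup T with hM
  obtain ⟨_, ⟨w, hw, rfl⟩, hwM⟩ := exists_lt_of_lt_csSup hTn (show M - ε / 4 < M by linarith)
  obtain ⟨B, hBA, hBi, hB⟩ := exists_small hp hA w (show 0 < ε / 4 by positivity)
  have hle : ∀ u ∈ S A z, p u ≤ M := fun u hu => le_csSup hTb ⟨u, hu, rfl⟩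
  refine ⟨B, hBA, hBi, w, hw, ⟨hw.1, fun n _ => rfl⟩, M, hle, ⟨w, hw, by linarith⟩, ?_⟩
  intro u hu
  -- the point symmetric to `u`
  set u' : Y 𝕜 := (2 : 𝕜) • (w - res B w) - u with hu'
  have hval : ∀ n, (n ∈ B → u' n = - u n) ∧ (n ∉ B → u' n = w n) := by
    intro n
    have e : u' n = 2 * (w n - res B w n) - u n := by
      rw [hu', lp.coeFn_sub, Pi.sub_apply, lp.coeFn_smul, Pi.smul_apply, lp.coeFn_sub,
        Pi.sub_apply, smul_eq_mul]
    constructor
    · intro hn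
      rw [e, res_mem hn]
      ring
    · intro hn
      rw [e, res_not_mem hn, hu.2 n hn]
      ring
  have hu'S : u' ∈ S A z := by
    constructor
    · intro n
      by_cases hn : n ∈ B
      · rw [(hval n).1 hn, norm_neg]
        exact hu.1 n
      · rw [(hval n).2 hn]
        exact hw.1 n
    · intro n hn
      have hnB : n ∉ B := fun h => hn (hBA h)
      rw [(hval n).2 hnB]
      exact hw.2 n hn
  have h1 := hle u' hu'S
  have h2 : p ((2 : 𝕜) • (w - res B w)) ≤ p u + p u' := by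
    have : (2 : 𝕜) • (w - res B w) = u + u' := by
      rw [hu']
      abel
    rw [this]
    exact hp.add_le _ _
  rw [hp.smul, RCLike.norm_two] at h2
  linarith

/-- the sequence of nested sets -/
structure St (𝕜 : Type) [RCLike 𝕜] where
  /-- the set -/
  A : Set ℕ
  /-- the point -/
  z : Y 𝕜
  inf : A.Infinite
  mem : z ∈ S A z

lemma exists_seq (hp : IsN p a b) : ∃ s : ℕ → St 𝕜, (∀ n, (s (n + 1)).A ⊆ (s n).A) ∧
    (∀ n, (s (n + 1)).z ∈ S (s n).A (s n).z) ∧
    (∀ n, ∃ M : ℝ, (∀ u ∈ S (s n).A (s n).z, p u ≤ M) ∧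
      (∃ u ∈ S (s n).A (s n).z, M - a / (2 * (n + 1)) ≤ p u) ∧
      ∀ u ∈ S (s (n + 1)).A (s (n + 1)).z, M - a / (2 * (n + 1)) ≤ p u) ∧
    (s 0).A = univ := by
  have hst : ∀ (n : ℕ) (t : St 𝕜), ∃ t' : St 𝕜, t'.A ⊆ t.A ∧ t'.z ∈ S t.A t.z ∧
      ∃ M : ℝ, (∀ u ∈ S t.A t.z, p u ≤ M) ∧
      (∃ u ∈ S t.A t.z, M - a / (2 * (n + 1)) ≤ p u) ∧
      ∀ u ∈ S t'.A t'.z, M - a / (2 * (n + 1)) ≤ p u := by
    intro n t
    obtain ⟨B, hBA, hBi, w, hw, hwB, M, h1, h2, h3⟩ :=
      step hp t.inf t.mem (show 0 < a / (2 * ((n : ℝ) + 1)) from div_pos hp.pos (by positivity))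
    exact ⟨⟨B, w, hBi, hwB⟩, hBA, hw, M, h1, h2, h3⟩
  choose g hg1 hg2 hg3 using hst
  let s0 : St 𝕜 := ⟨univ, 0, Set.infinite_univ, ⟨fun n => by simp, fun n _ => rfl⟩⟩
  let s : ℕ → St 𝕜 := fun n => Nat.rec s0 (fun k t => g k t) n
  exact ⟨s, fun n => hg1 n (s n), fun n => hg2 n (s n), fun n => hg3 n (s n), rfl⟩

/-- `ℓ_∞` has no equivalent LUR norm, in the form of a statement about a fixed norm. -/
lemma exists_bad (hp : IsN p a b) : ∃ (x : Y 𝕜) (v : ℕ → Y 𝕜), 0 < p x ∧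
    Tendsto (fun n => p (v n)) atTop (𝓝 (p x)) ∧
    Tendsto (fun n => p (v n + x)) atTop (𝓝 (2 * p x)) ∧ ∀ n, a ≤ p (v n - x) := by
  classical
  obtain ⟨s, hs1, hs2, hs3, hs0⟩ := exists_seq hp
  have hmono : ∀ i j, i ≤ j → (s j).A ⊆ (s i).A := by
    intro i j hij
    induction j, hij using Nat.le_induction with
    | base => exact subset_rfl
    | succ j _ ih => exact (hs1 j).trans ih
  have hcons : ∀ i j, i ≤ j → ∀ n, n ∉ (s i).A → (s j).z n = (s i).z n := by
    intro i j hij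
    induction j, hij using Nat.le_induction with
    | base => intro n _; rfl
    | succ j hj ih =>
      intro n hn
      rw [(hs2 j).2 n (fun h => hn (hmono i j hj h)), ih n hn]
  -- the limit point
  let xf : ℕ → 𝕜 := fun n => if h : ∃ j, n ∉ (s j).A then (s (Nat.find h)).z n else 0
  have hxf : ∀ j n, n ∉ (s j).A → xf n = (s j).z n := by
    intro j n hn
    have h : ∃ j, n ∉ (s j).A := ⟨j, hn⟩
    have h1 : xf n = (s (Nat.find h)).z n := by
      simp only [xf]
      rw [dif_pos h]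
    rw [h1]
    exact (hcons _ _ (Nat.find_min' h hn) n (Nat.find_spec h)).symm
  have hxf1 : ∀ n, ‖xf n‖ ≤ 1 := by
    intro n
    by_cases h : ∃ j, n ∉ (s j).A
    · obtain ⟨j, hj⟩ := h
      rw [hxf j n hj]
      exact (s j).mem.1 n
    · simp only [xf]
      rw [dif_neg h]
      simp
  let x : Y 𝕜 := ⟨xf, memℓp_infty ⟨1, by rintro _ ⟨n, rfl⟩; exact hxf1 n⟩⟩
  have hx : ∀ n, x n = xf n := fun n => rfl
  -- all perturbations of `x` on `A j` are in `S j`
  have hin : ∀ j (u : Y 𝕜), (∀ n, ‖u n‖ ≤ 1) → (∀ n, n ∉ (s j).A → u n = xf n) →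
      u ∈ S (s j).A (s j).z := fun j u h1 h2 => ⟨h1, fun n hn => (h2 n hn).trans (hxf j n hn)⟩
  have hsub : ∀ n, S (s (n + 1)).A (s (n + 1)).z ⊆ S (s n).A (s n).z := by
    intro n u hu
    refine ⟨hu.1, fun k hk => ?_⟩
    rw [hu.2 k (fun h => hk (hs1 n h)), (hs2 n).2 k hk]
  choose M hM1 hM2 hM3 using hs3
  -- oscillation
  have hosc : ∀ n, ∀ u ∈ S (s (n + 1)).A (s (n + 1)).z, ∀ u' ∈ S (s (n + 1)).A (s (n + 1)).z,
      |p u - p u'| ≤ a / (2 * (n + 1)) := by
    intro n u hu u' hu'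
    have h1 := hM3 n u hu
    have h2 := hM3 n u' hu'
    have h3 := hM1 n u (hsub n hu)
    have h4 := hM1 n u' (hsub n hu')
    rw [abs_le]
    constructor <;> linarith
  have hxS : ∀ j, x ∈ S (s j).A (s j).z := fun j => hin j x hxf1 fun n _ => rfl
  -- lower bound for `p x`
  have hpx : 0 < p x := by
    have h1 := hM3 0 x (hxS 1)
    have h2 : a ≤ M 0 := by
      have h3 : lp.single ∞ 0 (1 : 𝕜) ∈ S (s 0).A (s 0).z := by
        refine ⟨fun n => ?_, fun n hn => absurd (hs0 ▸ mem_univ n) hn⟩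
        refine (lp.norm_apply_le_norm ENNReal.top_ne_zero _ n).trans ?_
        rw [lp.norm_single (by simp)]
        simp
      have h4 := hM1 0 _ h3
      have h5 := hp.lower (lp.single ∞ 0 (1 : 𝕜))
      rw [lp.norm_single (by simp)] at h5
      simp only [norm_one, mul_one] at h5
      linarith
    have h3 := hp.pos
    simp only [Nat.cast_zero, zero_add, mul_one] at h1
    linarith
  -- the perturbations
  have hpt : ∀ j, ∃ n, n ∈ (s j).A := fun j => (s j).inf.nonempty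
  choose k hk using hpt
  have hc : ∀ n, ∃ c : 𝕜, ‖c‖ = 1 ∧ ∀ t : ℝ, 0 ≤ t → t ≤ 1 → ‖xf n + (t : 𝕜) * c‖ ≤ 1 := by
    intro n
    by_cases h0 : xf n = 0
    · refine ⟨1, by simp, fun t ht0 ht1 => ?_⟩
      rw [h0, zero_add, mul_one, RCLike.norm_ofReal, abs_of_nonneg ht0]
      exact ht1
    · have hn0 : ‖xf n‖ ≠ 0 := norm_ne_zero_iff.2 h0
      refine ⟨-(xf n / (‖xf n‖ : 𝕜)), ?_, fun t ht0 ht1 => ?_⟩
      · rw [norm_neg, norm_div, RCLike.norm_ofReal, abs_norm, div_self hn0]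
      · have e : xf n + (t : 𝕜) * -(xf n / (‖xf n‖ : 𝕜)) =
            (((‖xf n‖ - t : ℝ)) : 𝕜) * (xf n / (‖xf n‖ : 𝕜)) := by
          have : (‖xf n‖ : 𝕜) ≠ 0 := by exact_mod_cast hn0
          push_cast
          field_simp
          ring
        rw [e, norm_mul, norm_div, RCLike.norm_ofReal, RCLike.norm_ofReal, abs_norm,
          div_self hn0, mul_one, abs_le]
        have := hxf1 n
        have := norm_nonneg (xf n)
        constructor <;> linarith
  choose c hc1 hc2 using hc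
  let e : ℕ → Y 𝕜 := fun j => lp.single ∞ (k (j + 1)) (c (k (j + 1)))
  have he : ∀ j, ‖e j‖ = 1 := by
    intro j
    simp only [e]
    rw [lp.norm_single (by simp)]
    exact hc1 _
  have hpert : ∀ j (t : ℝ), 0 ≤ t → t ≤ 1 →
      x + (t : 𝕜) • e j ∈ S (s (j + 1)).A (s (j + 1)).z := by
    intro j t ht0 ht1
    have hval : ∀ n, (x + (t : 𝕜) • e j) n =
        xf n + (t : 𝕜) * (if n = k (j + 1) then c (k (j + 1)) else 0) := by
      intro n
      rw [lp.coeFn_add, Pi.add_apply, lp.coeFn_smul, Pi.smul_apply, smul_eq_mul, hx]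
      congr 2
      by_cases hn : n = k (j + 1)
      · subst hn
        simp only [e, if_true]
        exact lp.single_apply_self _ _ _
      · rw [if_neg hn]
        exact lp.single_apply_ne _ _ _ hn
    apply hin
    · intro n
      rw [hval]
      by_cases hn : n = k (j + 1)
      · rw [if_pos hn, ← hn]
        exact hc2 n t ht0 ht1
      · rw [if_neg hn, mul_zero, add_zero]
        exact hxf1 n
    · intro n hn
      rw [hval, if_neg, mul_zero, add_zero]
      rintro rfl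
      exact hn (hk _)
  refine ⟨x, fun j => x + e j, hpx, ?_, ?_, ?_⟩
  · rw [tendsto_iff_norm_sub_tendsto_zero]
    have hlim : Tendsto (fun n : ℕ => a / (2 * ((n : ℝ) + 1))) atTop (𝓝 0) := by
      apply Tendsto.div_atTop tendsto_const_nhds
      apply Tendsto.const_mul_atTop (by norm_num : (0 : ℝ) < 2)
      exact tendsto_atTop_add_const_right _ _ tendsto_natCast_atTop_atTop
    refine squeeze_zero (fun n => norm_nonneg _) (fun n => ?_) hlim
    rw [Real.norm_eq_abs]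
    have h1 := hpert n 1 zero_le_one le_rfl
    rw [RCLike.ofReal_one, one_smul] at h1
    exact hosc n _ h1 _ (hxS (n + 1))
  · rw [tendsto_iff_norm_sub_tendsto_zero]
    have hlim : Tendsto (fun n : ℕ => 2 * (a / (2 * ((n : ℝ) + 1)))) atTop (𝓝 0) := by
      rw [← mul_zero (2 : ℝ)]
      apply Tendsto.const_mul
      apply Tendsto.div_atTop tendsto_const_nhds
      apply Tendsto.const_mul_atTop (by norm_num : (0 : ℝ) < 2)
      exact tendsto_atTop_add_const_right _ _ tendsto_natCast_atTop_atTop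
    refine squeeze_zero (fun n => norm_nonneg _) (fun n => ?_) hlim
    rw [Real.norm_eq_abs]
    have h1 := hpert n (1 / 2) (by norm_num) (by norm_num)
    have h2 : p (x + e n + x) = 2 * p (x + ((1 / 2 : ℝ) : 𝕜) • e n) := by
      have : x + e n + x = (2 : 𝕜) • (x + ((1 / 2 : ℝ) : 𝕜) • e n) := by
        push_cast
        module
      rw [this, hp.smul, RCLike.norm_two]
    rw [h2, ← mul_sub, abs_mul, abs_two]
    exact mul_le_mul_of_nonneg_left (hosc n _ h1 _ (hxS (n + 1))) (by norm_num)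
  · intro j
    rw [add_sub_cancel_left]
    have := hp.lower (e j)
    rw [he, mul_one] at this
    exact this

end noLUR

/-! ### The Markushevich basis -/

section MBasis

variable {𝕜 : Type} [RCLike 𝕜]

/-- The index set of the space `ℓ_1`: pairs of a point of the unit ball of `ℓ_∞` and a number. -/
abbrev G (𝕜 : Type) [RCLike 𝕜] : Type := {y : Y 𝕜 // ‖y‖ ≤ 1} × ℕ

/-- the space `ℓ_1(G)` -/
abbrev Z (𝕜 : Type) [RCLike 𝕜] : Type := lp (fun _ : G 𝕜 => 𝕜) 1

/-- The functional on `ℓ_1(G)` given by a bounded function. -/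
noncomputable def pair (α : G 𝕜 → 𝕜) (K : ℝ) (hα : ∀ g, ‖α g‖ ≤ K) : Z 𝕜 →L[𝕜] 𝕜 :=
  have hs : ∀ z : Z 𝕜, Summable fun g => ‖z g‖ := fun z => by
    simpa using (lp.memℓp z).summable (by simp)
  have hs' : ∀ z : Z 𝕜, Summable fun g => ‖α g * z g‖ := fun z =>
    Summable.of_nonneg_of_le (fun g => norm_nonneg _)
      (fun g => by rw [norm_mul]; exact mul_le_mul_of_nonneg_right (hα g) (norm_nonneg _))
      ((hs z).mul_left K)
  LinearMap.mkContinuous
    { toFun := fun z => ∑' g, α g * z g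
      map_add' := fun z z' => by
        rw [← Summable.tsum_add (hs' z).of_norm (hs' z').of_norm]
        refine tsum_congr fun g => ?_
        rw [lp.coeFn_add, Pi.add_apply, mul_add]
      map_smul' := fun c z => by
        rw [RingHom.id_apply, smul_eq_mul, ← tsum_mul_left]
        refine tsum_congr fun g => ?_
        rw [lp.coeFn_smul, Pi.smul_apply, smul_eq_mul]
        ring }
    K (fun z => by
      change ‖∑' g, α g * z g‖ ≤ K * ‖z‖
      refine (norm_tsum_le_tsum_norm (hs' z)).trans ?_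
      rw [lp.norm_eq_tsum_rpow (by simp)]
      simp only [ENNReal.toReal_one, Real.rpow_one, div_one]
      rw [← tsum_mul_left]
      refine Summable.tsum_le_tsum (fun g => ?_) (hs' z) ((hs z).mul_left K)
      rw [norm_mul]
      exact mul_le_mul_of_nonneg_right (hα g) (norm_nonneg _))

lemma pair_apply (α : G 𝕜 → 𝕜) (K : ℝ) (hα : ∀ g, ‖α g‖ ≤ K) (z : Z 𝕜) :
    pair α K hα z = ∑' g, α g * z g := rfl

/-- the element of `ℓ_1(G)` with the only nonzero coordinate `c` at `g` -/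
noncomputable def sg (g : G 𝕜) (c : 𝕜) : Z 𝕜 :=
  open Classical in lp.single (E := fun _ : G 𝕜 => 𝕜) 1 g c

lemma sg_self (g : G 𝕜) (c : 𝕜) : sg g c g = c := by
  classical
  unfold sg
  convert lp.single_apply_self (E := fun _ : G 𝕜 => 𝕜) 1 g c

lemma sg_ne {g g' : G 𝕜} (c : 𝕜) (h : g' ≠ g) : sg g c g' = 0 := by
  classical
  unfold sg
  convert lp.single_apply_ne (E := fun _ : G 𝕜 => 𝕜) 1 g c h

lemma norm_sg (g : G 𝕜) (c : 𝕜) : ‖sg g c‖ = ‖c‖ := by
  classical
  unfold sg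
  convert lp.norm_single (E := fun _ : G 𝕜 => 𝕜) (p := 1) (by simp) g c

lemma smul_sg (g : G 𝕜) (c d : 𝕜) : c • sg g d = sg g (c * d) := by
  classical
  unfold sg
  rw [← smul_eq_mul]
  convert (lp.single_smul (E := fun _ : G 𝕜 => 𝕜) 1 g c d).symm

lemma hasSum_sg (z : Z 𝕜) : HasSum (fun g => sg g (z g)) z := by
  classical
  unfold sg
  convert lp.hasSum_single (E := fun _ : G 𝕜 => 𝕜) (p := 1) ENNReal.one_ne_top z

lemma pair_single (α : G 𝕜 → 𝕜) (K : ℝ) (hα : ∀ g, ‖α g‖ ≤ K) (g : G 𝕜) :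
    pair α K hα (sg g 1) = α g := by
  rw [pair_apply, tsum_eq_single g]
  · rw [sg_self, mul_one]
  · intro g' hg'
    rw [sg_ne _ hg', mul_zero]

/-- the Banach space `ℓ_∞ ⊕ ℓ_1(G)` -/
abbrev E (𝕜 : Type) [RCLike 𝕜] : Type := Y 𝕜 × Z 𝕜

/-- The coefficients `m · y(k)` if `m ≤ k` and `0` otherwise. -/
noncomputable def al (k : ℕ) (g : G 𝕜) : 𝕜 := if g.2 ≤ k then (g.2 : 𝕜) * g.1.1 k else 0

lemma al_le (k : ℕ) (g : G 𝕜) : ‖al k g‖ ≤ k := by
  unfold al
  split_ifs with h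
  · rw [norm_mul, RCLike.norm_natCast]
    have h1 : ‖g.1.1 k‖ ≤ 1 := (lp.norm_apply_le_norm ENNReal.top_ne_zero _ _).trans g.1.2
    have h2 : (g.2 : ℝ) ≤ k := by exact_mod_cast h
    calc (g.2 : ℝ) * ‖g.1.1 k‖ ≤ k * 1 :=
          mul_le_mul h2 h1 (norm_nonneg _) (Nat.cast_nonneg _)
      _ = k := mul_one _
  · simp

/-- the vectors of the basis -/
noncomputable def xx : ℕ ⊕ G 𝕜 → E 𝕜
  | Sum.inl k => (lp.single ∞ k 1, 0)
  | Sum.inr g => ((g.2 : 𝕜) • res {k | g.2 ≤ k} g.1.1, sg g 1)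

/-- the functionals of the basis -/
noncomputable def ff : ℕ ⊕ G 𝕜 → E 𝕜 →L[𝕜] 𝕜
  | Sum.inl k => (lp.evalCLM 𝕜 (fun _ : ℕ => 𝕜) ∞ k).comp (ContinuousLinearMap.fst 𝕜 _ _) -
      (pair (al k) k (al_le k)).comp (ContinuousLinearMap.snd 𝕜 _ _)
  | Sum.inr g => (lp.evalCLM 𝕜 (fun _ : G 𝕜 => 𝕜) 1 g).comp (ContinuousLinearMap.snd 𝕜 _ _)

lemma ff_inl (k : ℕ) (v : E 𝕜) :
    ff (Sum.inl k) v = v.1 k - pair (al k) k (al_le k) v.2 := rfl

lemma ff_inr (g : G 𝕜) (v : E 𝕜) : ff (Sum.inr g) v = v.2 g := rfl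

lemma isMBasis : IsMBasis 𝕜 (xx (𝕜 := 𝕜)) ff := by
  classical
  constructor
  · rintro (k | g)
    · rw [ff_inl]
      simp only [xx]
      rw [lp.single_apply_self, map_zero, sub_zero]
    · rw [ff_inr]
      simp only [xx]
      exact sg_self _ _
  · rintro (k | g) (j | g') hne
    · rw [ff_inl]
      simp only [xx]
      rw [map_zero, sub_zero, lp.single_apply_ne]
      rintro rfl
      exact hne rfl
    · rw [ff_inl]
      simp only [xx]
      rw [pair_single, lp.coeFn_smul, Pi.smul_apply, smul_eq_mul]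
      unfold al
      split_ifs with h
      · rw [res_mem (show k ∈ {k | g'.2 ≤ k} from h), sub_self]
      · rw [res_not_mem (show k ∉ {k | g'.2 ≤ k} from h), mul_zero, sub_zero]
    · rw [ff_inr]
      simp only [xx]
      rw [lp.coeFn_zero, Pi.zero_apply]
    · rw [ff_inr]
      simp only [xx]
      refine sg_ne _ ?_
      rintro rfl
      exact hne rfl
  · set V : Submodule 𝕜 (E 𝕜) := (Submodule.span 𝕜 (range (xx (𝕜 := 𝕜)))).topologicalClosure
      with hV
    have hxV : ∀ i, xx (𝕜 := 𝕜) i ∈ V := fun i =>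
      Submodule.le_topologicalClosure _ (Submodule.subset_span ⟨i, rfl⟩)
    have hVc : IsClosed (V : Set (E 𝕜)) := Submodule.isClosed_topologicalClosure _
    -- finitely supported vectors of `ℓ_∞`
    have hfin : ∀ (m : ℕ) (y : Y 𝕜), ((y - res {k | m ≤ k} y, 0) : E 𝕜) ∈ V := by
      intro m y
      have : ((y - res {k | m ≤ k} y, 0) : E 𝕜) =
          ∑ k ∈ Finset.range m, y k • xx (𝕜 := 𝕜) (Sum.inl k) := by
        refine Prod.ext ?_ ?_
        · rw [Prod.fst_sum]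
          apply lp.ext
          funext n
          rw [lp.coeFn_sub, Pi.sub_apply, lp.coeFn_sum, Finset.sum_apply]
          have h1 : ∀ k ∈ Finset.range m, (y k • xx (𝕜 := 𝕜) (Sum.inl k)).1 n =
              if n = k then y k else 0 := by
            intro k _
            simp only [xx, Prod.smul_mk]
            rw [lp.coeFn_smul, Pi.smul_apply, smul_eq_mul]
            split_ifs with h
            · subst h
              rw [lp.single_apply_self, mul_one]
            · rw [lp.single_apply_ne _ _ _ h, mul_zero]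
          rw [Finset.sum_congr rfl h1, Finset.sum_ite_eq]
          by_cases hn : n < m
          · rw [if_pos (Finset.mem_range.2 hn),
              res_not_mem (show n ∉ {k | m ≤ k} from not_le.2 hn), sub_zero]
          · rw [if_neg (fun h => hn (Finset.mem_range.1 h)),
              res_mem (show n ∈ {k | m ≤ k} from not_lt.1 hn), sub_self]
        · rw [Prod.snd_sum]
          symm
          refine Finset.sum_eq_zero fun k _ => ?_
          simp only [xx, Prod.smul_mk, smul_zero]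
      rw [this]
      exact V.sum_mem fun k _ => V.smul_mem _ (hxV _)
    -- the unit ball of `ℓ_∞`
    have hball : ∀ y : {y : Y 𝕜 // ‖y‖ ≤ 1}, ((y.1, 0) : E 𝕜) ∈ V := by
      intro y
      have hlim : Tendsto (fun m : ℕ => ((y.1, ((m + 1 : ℕ) : 𝕜)⁻¹ •
          sg (y, m + 1) (1 : 𝕜)) : E 𝕜)) atTop (𝓝 (y.1, 0)) := by
        refine Tendsto.prodMk_nhds tendsto_const_nhds ?_
        rw [tendsto_zero_iff_norm_tendsto_zero]
        have h1 : ∀ m : ℕ, ‖((m + 1 : ℕ) : 𝕜)⁻¹ • sg (y, m + 1) (1 : 𝕜)‖ =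
            1 / ((m : ℝ) + 1) := by
          intro m
          rw [norm_smul, norm_inv, RCLike.norm_natCast, norm_sg, norm_one, mul_one]
          push_cast
          rw [one_div]
        simp_rw [h1]
        exact tendsto_one_div_add_atTop_nhds_zero_nat
      refine hVc.mem_of_tendsto hlim (Eventually.of_forall fun m => ?_)
      have e : ((y.1, ((m + 1 : ℕ) : 𝕜)⁻¹ • sg (y, m + 1) (1 : 𝕜)) : E 𝕜) =
          (y.1 - res {k | m + 1 ≤ k} y.1, 0) +
            ((m + 1 : ℕ) : 𝕜)⁻¹ • xx (𝕜 := 𝕜) (Sum.inr (y, m + 1)) := by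
        refine Prod.ext ?_ ?_
        · simp only [xx, Prod.smul_mk, Prod.mk_add_mk]
          have : ((m + 1 : ℕ) : 𝕜) ≠ 0 := by exact_mod_cast Nat.succ_ne_zero m
          rw [smul_smul, inv_mul_cancel₀ this, one_smul, sub_add_cancel]
        · simp only [xx, Prod.smul_mk, Prod.mk_add_mk, zero_add]
      rw [e]
      exact V.add_mem (hfin _ _) (V.smul_mem _ (hxV _))
    have hY : ∀ y : Y 𝕜, ((y, 0) : E 𝕜) ∈ V := by
      intro y
      have hn : (0 : ℝ) < ‖y‖ + 1 := by positivity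
      have h1 : ‖(((‖y‖ + 1 : ℝ) : 𝕜)⁻¹ • y)‖ ≤ 1 := by
        rw [norm_smul, norm_inv, RCLike.norm_ofReal, abs_of_pos hn, inv_mul_le_iff₀ hn]
        linarith
      have h2 := hball ⟨_, h1⟩
      have h3 := V.smul_mem (((‖y‖ + 1 : ℝ) : 𝕜)) h2
      have h4 : ((‖y‖ + 1 : ℝ) : 𝕜) ≠ 0 := by exact_mod_cast hn.ne'
      rw [Prod.smul_mk, smul_zero, smul_smul, mul_inv_cancel₀ h4, one_smul] at h3
      exact h3
    have hZ1 : ∀ (g : G 𝕜) (c : 𝕜), ((0, sg g c) : E 𝕜) ∈ V := by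
      intro g c
      have h1 := V.sub_mem (hxV (Sum.inr g)) (hY ((g.2 : 𝕜) • res {k | g.2 ≤ k} g.1.1))
      have h2 := V.smul_mem c h1
      have h3 : c • (xx (𝕜 := 𝕜) (Sum.inr g) - ((g.2 : 𝕜) • res {k | g.2 ≤ k} g.1.1, 0)) =
          ((0, sg g c) : E 𝕜) := by
        simp only [xx, Prod.mk_sub_mk, sub_self, sub_zero, Prod.smul_mk, smul_zero]
        rw [smul_sg, mul_one]
      rw [h3] at h2
      exact h2
    have hZ : ∀ z : Z 𝕜, ((0, z) : E 𝕜) ∈ V := by
      intro z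
      have h2 : Tendsto (fun s : Finset (G 𝕜) => ((0, ∑ g ∈ s, sg g (z g)) : E 𝕜))
          atTop (𝓝 (0, z)) := Tendsto.prodMk_nhds tendsto_const_nhds (hasSum_sg z)
      refine hVc.mem_of_tendsto h2 (Eventually.of_forall fun s => ?_)
      have h3 : ((0, ∑ g ∈ s, sg g (z g)) : E 𝕜) =
          ∑ g ∈ s, ((0, sg g (z g)) : E 𝕜) := by
        refine Prod.ext ?_ ?_
        · rw [Prod.fst_sum]
          simp
        · rw [Prod.snd_sum]
      rw [h3]
      exact V.sum_mem fun g _ => hZ1 g _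
    rw [Set.eq_univ_iff_forall]
    rintro ⟨y, z⟩
    have h1 := V.add_mem (hY y) (hZ z)
    rw [Prod.mk_add_mk, add_zero, zero_add] at h1
    exact h1
  · rintro ⟨y, z⟩ h
    have hz : z = 0 := by
      apply lp.ext
      funext g
      rw [lp.coeFn_zero, Pi.zero_apply]
      exact h (Sum.inr g)
    subst hz
    have hy : y = 0 := by
      apply lp.ext
      funext k
      rw [lp.coeFn_zero, Pi.zero_apply]
      have := h (Sum.inl k)
      rw [ff_inl] at this
      simpa using this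
    rw [hy]
    rfl

end MBasis

/-- **Theorem.** Over `𝕜 = ℝ` or `ℂ` the Banach space `ℓ_∞(ℕ) ⊕ ℓ_1(G)` has an extended
Markushevich basis, and no norm on it equivalent to the given one is locally uniformly convex. -/
theorem result (𝕜 : Type) [RCLike 𝕜] :
    (∃ (I : Type) (x : I → E 𝕜) (f : I → E 𝕜 →L[𝕜] 𝕜), IsMBasis 𝕜 x f) ∧
    CompleteSpace (E 𝕜) ∧
    ∀ N : E 𝕜 → ℝ, IsEquivNorm 𝕜 N → ¬ IsLUR N := by
  refine ⟨⟨_, xx, ff, isMBasis⟩, inferInstance, ?_⟩
  intro N hN hL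
  obtain ⟨a, b, ha, hb, hab⟩ := hN.equiv
  set p : Y 𝕜 → ℝ := fun y => N (y, 0) with hp
  have hpN : IsN p a b := by
    constructor
    · intro u v
      have := hN.add_le (u, 0) (v, 0)
      rw [Prod.mk_add_mk, add_zero] at this
      exact this
    · intro c u
      have := hN.smul c (u, 0)
      rw [Prod.smul_mk, smul_zero] at this
      exact this
    · exact ha
    · intro u
      have := (hab (u, 0)).1
      rw [Prod.norm_mk, norm_zero, max_eq_left (norm_nonneg _)] at this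
      exact this
    · intro u
      have := (hab (u, 0)).2
      rw [Prod.norm_mk, norm_zero, max_eq_left (norm_nonneg _)] at this
      exact this
  obtain ⟨x, v, hx, hv, hvx, hd⟩ := exists_bad hpN
  -- discard the finitely many `v n` with `p (v n) = 0`
  have hev : ∀ᶠ n in atTop, 0 < p (v n) := hv.eventually (lt_mem_nhds hx)
  obtain ⟨n₀, hn₀⟩ := eventually_atTop.1 hev
  have hsh : Tendsto (fun n : ℕ => n + n₀) atTop atTop := tendsto_add_atTop_nat n₀
  have hv' := hv.comp hsh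
  have hvx' := hvx.comp hsh
  have hpos : ∀ n, 0 < p (v (n + n₀)) := fun n => hn₀ _ (by omega)
  have hnorm : ∀ (r : ℝ) (y : Y 𝕜), 0 < r → N (((r⁻¹ : ℝ) : 𝕜) • (y, 0)) = r⁻¹ * p y := by
    intro r y hr
    rw [hN.smul, RCLike.norm_ofReal, abs_of_pos (inv_pos.2 hr)]
  -- the normalised vectors
  set q : ℕ → Y 𝕜 := fun n => (((p (v (n + n₀)))⁻¹ : ℝ) : 𝕜) • v (n + n₀) with hq
  set x' : Y 𝕜 := (((p x)⁻¹ : ℝ) : 𝕜) • x with hx'
  have hcoef : Tendsto (fun n => |(p (v (n + n₀)))⁻¹ - (p x)⁻¹| * p (v (n + n₀))) atTop (𝓝 0) := by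
    have h1 : Tendsto (fun n => (p (v (n + n₀)))⁻¹) atTop (𝓝 (p x)⁻¹) := hv'.inv₀ hx.ne'
    have h2 : Tendsto (fun n => |(p (v (n + n₀)))⁻¹ - (p x)⁻¹| * p (v (n + n₀))) atTop
        (𝓝 (|(p x)⁻¹ - (p x)⁻¹| * p x)) := ((h1.sub_const _).abs).mul hv'
    simpa using h2
  -- comparison of `q n` with a multiple of `v`
  have hcmp : ∀ n (w : Y 𝕜), |p (q n + w) - p ((((p x)⁻¹ : ℝ) : 𝕜) • v (n + n₀) + w)| ≤
      |(p (v (n + n₀)))⁻¹ - (p x)⁻¹| * p (v (n + n₀)) := by
    intro n w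
    have h1 : p (((((p (v (n + n₀)))⁻¹ - (p x)⁻¹ : ℝ)) : 𝕜) • v (n + n₀)) =
        |(p (v (n + n₀)))⁻¹ - (p x)⁻¹| * p (v (n + n₀)) := by
      rw [hpN.smul, RCLike.norm_ofReal]
    have h2 : p (-(((((p (v (n + n₀)))⁻¹ - (p x)⁻¹ : ℝ)) : 𝕜) • v (n + n₀))) =
        |(p (v (n + n₀)))⁻¹ - (p x)⁻¹| * p (v (n + n₀)) := by
      rw [← h1, ← neg_one_smul 𝕜, hpN.smul, norm_neg, norm_one, one_mul]
    rw [abs_le]
    constructor
    · have h3 := hpN.sub_le ((((p x)⁻¹ : ℝ) : 𝕜) • v (n + n₀) + w) (q n + w)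
      have h4 : (((p x)⁻¹ : ℝ) : 𝕜) • v (n + n₀) + w - (q n + w) =
          -(((((p (v (n + n₀)))⁻¹ - (p x)⁻¹ : ℝ)) : 𝕜) • v (n + n₀)) := by
        rw [hq, RCLike.ofReal_sub]
        module
      rw [h4, h2] at h3
      linarith
    · have h3 := hpN.sub_le (q n + w) ((((p x)⁻¹ : ℝ) : 𝕜) • v (n + n₀) + w)
      have h4 : q n + w - ((((p x)⁻¹ : ℝ) : 𝕜) • v (n + n₀) + w) =
          (((((p (v (n + n₀)))⁻¹ - (p x)⁻¹ : ℝ)) : 𝕜) • v (n + n₀)) := by
        rw [hq, RCLike.ofReal_sub]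
        module
      rw [h4, h1] at h3
      linarith
  have hT := hL ((x', 0) : E 𝕜) (fun n => ((q n, 0) : E 𝕜)) ?_ ?_ ?_
  · -- contradiction
    have hge : ∀ n, (p x)⁻¹ * a - |(p (v (n + n₀)))⁻¹ - (p x)⁻¹| * p (v (n + n₀)) ≤
        N ((q n, 0) - (x', 0)) := by
      intro n
      have h1 := (abs_le.1 (hcmp n (-x'))).1
      have h2 : (((p x)⁻¹ : ℝ) : 𝕜) • v (n + n₀) + -x' =
          (((p x)⁻¹ : ℝ) : 𝕜) • (v (n + n₀) - x) := by
        rw [hx']
        module
      rw [h2, hpN.smul, RCLike.norm_ofReal, abs_of_pos (inv_pos.2 hx)] at h1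
      have h3 := mul_le_mul_of_nonneg_left (hd (n + n₀)) (inv_pos.2 hx).le
      have h4 : p (q n + -x') = N ((q n, 0) - (x', 0)) := by
        rw [hp, Prod.mk_sub_mk, sub_self, sub_eq_add_neg]
      rw [h4] at h1
      linarith
    have hlim : Tendsto (fun n => (p x)⁻¹ * a -
        |(p (v (n + n₀)))⁻¹ - (p x)⁻¹| * p (v (n + n₀))) atTop (𝓝 ((p x)⁻¹ * a)) := by
      simpa using hcoef.const_sub ((p x)⁻¹ * a)
    have h1 := le_of_tendsto_of_tendsto' hlim hT hge
    have h2 : 0 < (p x)⁻¹ * a := mul_pos (inv_pos.2 hx) ha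
    linarith
  · change p x' = 1
    rw [hx', hpN.smul, RCLike.norm_ofReal, abs_of_pos (inv_pos.2 hx), inv_mul_cancel₀ hx.ne']
  · intro n
    change p (q n) = 1
    rw [hq]
    dsimp only
    rw [hpN.smul, RCLike.norm_ofReal, abs_of_pos (inv_pos.2 (hpos n)),
      inv_mul_cancel₀ (hpos n).ne']
  · have h1 : ∀ n, N ((q n, 0) + (x', 0)) = p (q n + x') := by
      intro n
      rw [hp, Prod.mk_add_mk, add_zero]
    simp_rw [h1]
    have h2 : Tendsto (fun n => p ((((p x)⁻¹ : ℝ) : 𝕜) • v (n + n₀) + x')) atTop (𝓝 2) := by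
      have h3 : ∀ n, p ((((p x)⁻¹ : ℝ) : 𝕜) • v (n + n₀) + x') =
          (p x)⁻¹ * p (v (n + n₀) + x) := by
        intro n
        rw [hx', ← smul_add, hpN.smul, RCLike.norm_ofReal, abs_of_pos (inv_pos.2 hx)]
      simp_rw [h3]
      have h4 : Tendsto (fun n => (p x)⁻¹ * p (v (n + n₀) + x)) atTop
          (𝓝 ((p x)⁻¹ * (2 * p x))) := hvx'.const_mul _
      have h5 : (p x)⁻¹ * (2 * p x) = 2 := by
        field_simp
      rwa [h5] at h4
    have h3 : Tendsto (fun n => p (q n + x') - p ((((p x)⁻¹ : ℝ) : 𝕜) • v (n + n₀) + x'))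
        atTop (𝓝 0) := by
      refine squeeze_zero_norm (fun n => ?_) hcoef
      rw [Real.norm_eq_abs]
      exact hcmp n x'
    have h4 := h3.add h2
    simpa using h4

end Pool.Agent.Results.MP_ea77cd_an.MBasisNoLUR
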